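import Mathlib

/-!
# Monotone edge paths: abstract potentials, products, transfer

`Step P f v w` : `v`, `w` are distinct vertices (extreme points) of the set `P`, joined by an edge
(the segment is an extreme subset, i.e. a face) and `f v < f w`.

A *tracked system* is a family of points with a potential that drops by at most one along
every improving edge; it bounds the length of every monotone path from below.
-/

namespace Pool.Agent.MonoLP

open Set

section Abstract

variable {E : Type*} [AddCommGroup E] [Module ℝ E]

/-- One improving edge step on the set `P` with objective `f` (to be maximised). -/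
def Step (P : Set E) (f : E → ℝ) (v w : E) : Prop :=
  v ≠ w ∧ v ∈ P.extremePoints ℝ ∧ w ∈ P.extremePoints ℝ ∧ IsExtreme ℝ P (segment ℝ v w) ∧
    f v < f w

/-- `v` maximises `f` over `P`. -/
def IsMax (P : Set E) (f : E → ℝ) (v : E) : Prop := v ∈ P ∧ ∀ x ∈ P, f x ≤ f v

/-- A tracked system of points with potential. -/
structure Tracked (P : Set E) (f : E → ℝ) {ι : Type*} (pt : ι → E) (φ : ι → ℕ) : Prop where
  step : ∀ i w, Step P f (pt i) w → ∃ j, w = pt j ∧ φ i ≤ φ j + 1
  zero : ∀ i, IsMax P f (pt i) → φ i = 0

theorem Tracked.length_ge {P : Set E} {f : E → ℝ} {ι : Type*} {pt : ι → E} {φ : ι → ℕ}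
    (h : Tracked P f pt φ) (N : ℕ) (p : ℕ → E) (i₀ : ι) (h0 : p 0 = pt i₀)
    (hs : ∀ i < N, Step P f (p i) (p (i + 1))) (hN : IsMax P f (p N)) : φ i₀ ≤ N := by
  have key : ∀ t ≤ N, ∃ j, p t = pt j ∧ φ i₀ ≤ φ j + t := by
    intro t
    induction t with
    | zero => intro _; exact ⟨i₀, h0, by simp⟩
    | succ t ih =>
      intro ht
      obtain ⟨j, hj, hφ⟩ := ih (by omega)
      have hst := hs t (by omega)
      rw [hj] at hst
      obtain ⟨l, hl, hlφ⟩ := h.step j _ hst
      exact ⟨l, hl, by omega⟩
  obtain ⟨j, hj, hφ⟩ := key N le_rfl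
  rw [hj] at hN
  have := h.zero j hN
  omega

/-- Transfer of `Step` along a linear equivalence. -/
theorem Step.image {F : Type*} [AddCommGroup F] [Module ℝ F] (e : E ≃ₗ[ℝ] F) {P : Set E}
    {f : E → ℝ} {v w : E} (h : Step P f v w) :
    Step (e '' P) (fun y => f (e.symm y)) (e v) (e w) := by
  obtain ⟨h1, h2, h3, h4, h5⟩ := h
  refine ⟨fun hh => h1 (e.injective hh), ?_, ?_, ?_, ?_⟩
  · rw [← image_extremePoints e P]; exact ⟨v, h2, rfl⟩
  · rw [← image_extremePoints e P]; exact ⟨w, h3, rfl⟩
  · refine ⟨?_, ?_⟩
    · have := Set.image_mono (f := e) h4.subset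
      have h6 := image_segment ℝ (e : E →ₗ[ℝ] F).toAffineMap v w
      have h7 : (e : E → F) '' segment ℝ v w = segment ℝ (e v) (e w) := by
        simpa using h6
      rw [← h7]; exact this
    · rintro _ ⟨x, hx, rfl⟩ _ ⟨y, hy, rfl⟩ z hz hzo
      have h7 : (e : E → F) '' segment ℝ v w = segment ℝ (e v) (e w) := by
        simpa using image_segment ℝ (e : E →ₗ[ℝ] F).toAffineMap v w
      have h8 : (e : E → F) '' openSegment ℝ x y = openSegment ℝ (e x) (e y) := by
        simpa using image_openSegment ℝ (e : E →ₗ[ℝ] F).toAffineMap x y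
      rw [← h7] at hz ⊢
      rw [← h8] at hzo
      obtain ⟨z', hz', rfl⟩ := hz
      obtain ⟨z'', hz'', hzz⟩ := hzo
      obtain rfl := e.injective hzz
      exact ⟨x, h4.2 hx hy hz' hz'', rfl⟩
  · simpa using h5

theorem Tracked.image {F : Type*} [AddCommGroup F] [Module ℝ F] (e : E ≃ₗ[ℝ] F) {P : Set E}
    {f : E → ℝ} {ι : Type*} {pt : ι → E} {φ : ι → ℕ} (h : Tracked P f pt φ) :
    Tracked (e '' P) (fun y => f (e.symm y)) (fun i => e (pt i)) φ := by
  constructor
  · intro i w hw
    have := Step.image e.symm hw
    have h1 : (e.symm : F → E) '' (e '' P) = P := by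
      ext x; simp
    rw [h1] at this
    simp only [LinearEquiv.symm_apply_apply, LinearEquiv.symm_symm] at this
    obtain ⟨j, hj, hφ⟩ := h.step i _ this
    refine ⟨j, ?_, hφ⟩
    rw [← hj]; simp
  · intro i hi
    apply h.zero i
    refine ⟨?_, ?_⟩
    · obtain ⟨x, hx, hxe⟩ := hi.1
      obtain rfl := e.injective hxe
      exact hx
    · intro x hx
      have := hi.2 (e x) ⟨x, hx, rfl⟩
      simpa using this

end Abstract

section Product

variable {K : Type*} [Fintype K] [DecidableEq K] {E : Type*} [AddCommGroup E] [Module ℝ E]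

/-- the product of copies of `P` -/
def prodSet (K : Type*) (P : Set E) : Set (K → E) := {x | ∀ a, x a ∈ P}

theorem prodSet_eq (P : Set E) : prodSet K P = Set.univ.pi fun _ => P := by
  ext x; simp [prodSet]

/-- An edge of a product moves exactly one coordinate and moves it along an edge. -/
theorem Step.prod {P : Set E} {f : E → ℝ} {v w : K → E}
    (h : Step (prodSet K P) (fun x => ∑ a, f (x a)) v w) :
    ∃ a, Step P f (v a) (w a) ∧ w = Function.update v a (w a) := by
  obtain ⟨hne, hv, hw, hext, hlt⟩ := h
  have hv' : ∀ a, v a ∈ P.extremePoints ℝ := by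
    rw [prodSet_eq, extremePoints_pi] at hv
    intro a; exact hv a (Set.mem_univ a)
  have hw' : ∀ a, w a ∈ P.extremePoints ℝ := by
    rw [prodSet_eq, extremePoints_pi] at hw
    intro a; exact hw a (Set.mem_univ a)
  have hvP : ∀ a, v a ∈ P := fun a => (hv' a).1
  have hwP : ∀ a, w a ∈ P := fun a => (hw' a).1
  obtain ⟨a, ha⟩ : ∃ a, v a ≠ w a := by
    by_contra hcon
    push Not at hcon
    exact hne (funext hcon)
  -- all other coordinates agree
  have hother : ∀ b, b ≠ a → v b = w b := by
    intro b hb
    by_contra hvb
    have hx : Function.update v b (w b) ∈ prodSet K P := by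
      intro c
      by_cases hc : c = b
      · subst hc; simp [hwP]
      · simp [Function.update_of_ne hc, hvP]
    have hy : Function.update w b (v b) ∈ prodSet K P := by
      intro c
      by_cases hc : c = b
      · subst hc; simp [hvP]
      · simp [Function.update_of_ne hc, hwP]
    have hmid : (1 / 2 : ℝ) • v + (1 / 2 : ℝ) • w ∈ segment ℝ v w :=
      ⟨1 / 2, 1 / 2, by norm_num, by norm_num, by norm_num, rfl⟩
    have hmid2 : (1 / 2 : ℝ) • v + (1 / 2 : ℝ) • w ∈
        openSegment ℝ (Function.update v b (w b)) (Function.update w b (v b)) := by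
      refine ⟨1 / 2, 1 / 2, by norm_num, by norm_num, by norm_num, ?_⟩
      funext c
      by_cases hc : c = b
      · subst hc; simp [add_comm]
      · simp [Function.update_of_ne hc]
    have hin := hext.2 hx hy hmid hmid2
    obtain ⟨s, t, hs, ht, hst, heq⟩ := hin
    have h1 : s • v a + t • w a = v a := by
      have := congrFun heq a
      simpa [Function.update_of_ne (Ne.symm hb)] using this
    have h2 : s • v b + t • w b = w b := by
      have := congrFun heq b
      simpa using this
    have ht0 : t = 0 := by
      by_contra htne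
      apply ha
      have h3 : t • (w a - v a) = 0 := by
        have : s = 1 - t := by linarith
        subst this
        rw [sub_smul, one_smul] at h1
        rw [smul_sub]
        have : v a - t • v a + t • w a - v a = 0 := sub_eq_zero.mpr h1
        rw [← this]; abel
      rcases smul_eq_zero.mp h3 with h4 | h4
      · exact absurd h4 htne
      · exact (sub_eq_zero.mp h4).symm
    have hs1 : s = 1 := by linarith
    subst ht0
    subst hs1
    apply hvb
    simpa using h2
  have hupd : w = Function.update v a (w a) := by
    funext c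
    by_cases hc : c = a
    · subst hc; simp
    · simp [Function.update_of_ne hc, hother c hc]
  refine ⟨a, ⟨ha, hv' a, hw' a, ⟨?_, ?_⟩, ?_⟩, hupd⟩
  · rintro x ⟨s, t, hs, ht, hst, rfl⟩
    have : s • v + t • w ∈ prodSet K P := hext.subset ⟨s, t, hs, ht, hst, rfl⟩
    exact this a
  · intro x hx y hy z hz hzo
    have hX : Function.update v a x ∈ prodSet K P := by
      intro c
      by_cases hc : c = a
      · subst hc; simpa using hx
      · simp [Function.update_of_ne hc, hvP]
    have hY : Function.update v a y ∈ prodSet K P := by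
      intro c
      by_cases hc : c = a
      · subst hc; simpa using hy
      · simp [Function.update_of_ne hc, hvP]
    have hZ : Function.update v a z ∈ segment ℝ v w := by
      obtain ⟨s, t, hs, ht, hst, rfl⟩ := hz
      refine ⟨s, t, hs, ht, hst, ?_⟩
      funext c
      by_cases hc : c = a
      · subst hc; simp
      · simp only [Pi.add_apply, Pi.smul_apply, Function.update_of_ne hc]
        rw [← hother c hc, ← add_smul, hst, one_smul]
    have hZo : Function.update v a z ∈
        openSegment ℝ (Function.update v a x) (Function.update v a y) := by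
      obtain ⟨s, t, hs, ht, hst, rfl⟩ := hzo
      refine ⟨s, t, hs, ht, hst, ?_⟩
      funext c
      by_cases hc : c = a
      · subst hc; simp
      · simp only [Pi.add_apply, Pi.smul_apply, Function.update_of_ne hc]
        rw [← add_smul, hst, one_smul]
    have := hext.2 hX hY hZ hZo
    obtain ⟨s, t, hs, ht, hst, heq⟩ := this
    refine ⟨s, t, hs, ht, hst, ?_⟩
    have := congrFun heq a
    simpa using this
  · have h1 : ∑ b, f (w b) - ∑ b, f (v b) = f (w a) - f (v a) := by
      rw [← Finset.sum_sub_distrib]
      rw [Finset.sum_eq_single a]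
      · intro b _ hb
        rw [hother b hb]; simp
      · intro hcon; exact absurd (Finset.mem_univ a) hcon
    have h2 : (∑ b, f (v b)) < ∑ b, f (w b) := hlt
    linarith

theorem Tracked.prod {P : Set E} {f : E → ℝ} {ι : Type*} {pt : ι → E} {φ : ι → ℕ}
    (h : Tracked P f pt φ) :
    Tracked (prodSet K P) (fun x => ∑ a, f (x a)) (fun (κ : K → ι) a => pt (κ a))
      (fun κ => ∑ a, φ (κ a)) := by
  constructor
  · intro κ w hw
    obtain ⟨a, hst, hupd⟩ := Step.prod hw
    obtain ⟨j, hj, hφ⟩ := h.step (κ a) _ hst
    refine ⟨Function.update κ a j, ?_, ?_⟩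
    · rw [hupd]
      funext c
      by_cases hc : c = a
      · subst hc; simp [hj]
      · simp [Function.update_of_ne hc]
    · rw [← Finset.add_sum_erase Finset.univ _ (Finset.mem_univ a),
        ← Finset.add_sum_erase Finset.univ (fun b => φ (Function.update κ a j b))
          (Finset.mem_univ a)]
      have h1 : ∑ x ∈ Finset.univ.erase a, φ (Function.update κ a j x) =
          ∑ x ∈ Finset.univ.erase a, φ (κ x) := by
        apply Finset.sum_congr rfl
        intro x hx
        rw [Function.update_of_ne (Finset.ne_of_mem_erase hx)]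
      rw [h1]
      simp only [Function.update_self]
      omega
  · intro κ hκ
    apply Finset.sum_eq_zero
    intro a _
    apply h.zero
    have hP : ∀ a, pt (κ a) ∈ P := hκ.1
    refine ⟨hP a, ?_⟩
    intro x hx
    have h1 := hκ.2 (Function.update (fun a => pt (κ a)) a x) (by
      intro c
      by_cases hc : c = a
      · subst hc; simpa using hx
      · simp [Function.update_of_ne hc, hP])
    have h2 : ∑ b, f (Function.update (fun a => pt (κ a)) a x b) - ∑ b, f (pt (κ b)) =
        f x - f (pt (κ a)) := by
      rw [← Finset.sum_sub_distrib]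
      rw [Finset.sum_eq_single a]
      · simp
      · intro b _ hb
        rw [Function.update_of_ne hb]; simp
      · intro hcon; exact absurd (Finset.mem_univ a) hcon
    simp only at h1
    linarith

end Product

end Pool.Agent.MonoLP
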