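import Mathlib
import Pool.Agent.Lib.MP_4d246d_lc.Mono.Basic

/-!
# Edges of polyhedra at simple vertices, and a finite integer certificate
-/

namespace Pool.Agent.MonoLP

open Set Matrix

section Edge

variable {ρ : Type*} [Fintype ρ] {n : ℕ}

/-- the polyhedron `a i · x ≤ β i` -/
def poly (a : ρ → Fin n → ℝ) (β : ρ → ℝ) : Set (Fin n → ℝ) := {x | ∀ i, a i ⬝ᵥ x ≤ β i}

/-- Certificate that `v` is a simple vertex: `n` independent tight rows with dual edge
directions `D`, all other rows strictly slack. -/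
structure VCert (a : ρ → Fin n → ℝ) (β : ρ → ℝ) (v : Fin n → ℝ) (B : Fin n → ρ)
    (D : Fin n → Fin n → ℝ) (s : ℝ) : Prop where
  spos : 0 < s
  tight : ∀ j, a (B j) ⬝ᵥ v = β (B j)
  slack : ∀ i, (∀ j, i ≠ B j) → a i ⬝ᵥ v < β i
  dual : ∀ j l, a (B j) ⬝ᵥ D l = if j = l then -s else 0

variable {a : ρ → Fin n → ℝ} {β : ρ → ℝ} {v w : Fin n → ℝ} {B : Fin n → ρ}
  {D : Fin n → Fin n → ℝ} {s : ℝ}

omit [Fintype ρ] in
theorem VCert.mem (h : VCert a β v B D s) : v ∈ poly a β := by
  intro i
  by_cases hi : ∃ j, i = B j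
  · obtain ⟨j, rfl⟩ := hi
    exact (h.tight j).le
  · push Not at hi
    exact (h.slack i hi).le

omit [Fintype ρ] in
/-- every point is `v` plus a combination of the edge directions -/
theorem VCert.rep (h : VCert a β v B D s) (x : Fin n → ℝ) :
    x = v + ∑ j, ((β (B j) - a (B j) ⬝ᵥ x) / s) • D j := by
  have hs := h.spos
  set AB : Matrix (Fin n) (Fin n) ℝ := Matrix.of fun j y => a (B j) y with hAB
  set DM : Matrix (Fin n) (Fin n) ℝ := Matrix.of fun y l => (-1 / s) * D l y with hDM
  have h1 : AB * DM = 1 := by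
    ext j l
    rw [Matrix.mul_apply]
    have : ∑ y, AB j y * DM y l = (-1 / s) * (a (B j) ⬝ᵥ D l) := by
      rw [dotProduct, Finset.mul_sum]
      apply Finset.sum_congr rfl
      intro y _
      simp only [hAB, hDM, Matrix.of_apply]
      ring
    rw [this, h.dual, Matrix.one_apply]
    split_ifs
    · field_simp
    · simp
  have h2 : DM * AB = 1 := mul_eq_one_comm.mp h1
  have h3 : x - v = DM *ᵥ (AB *ᵥ (x - v)) := by
    rw [Matrix.mulVec_mulVec, h2, Matrix.one_mulVec]
  have h4 : ∀ j, (AB *ᵥ (x - v)) j = a (B j) ⬝ᵥ x - β (B j) := by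
    intro j
    have : (AB *ᵥ (x - v)) j = a (B j) ⬝ᵥ (x - v) := rfl
    rw [this, dotProduct_sub, h.tight]
  have h5 : x - v = ∑ j, ((β (B j) - a (B j) ⬝ᵥ x) / s) • D j := by
    rw [h3]
    funext y
    have : (DM *ᵥ (AB *ᵥ (x - v))) y = ∑ j, DM y j * (AB *ᵥ (x - v)) j := rfl
    rw [this, Finset.sum_apply]
    apply Finset.sum_congr rfl
    intro j _
    rw [h4]
    simp only [hDM, Matrix.of_apply, Pi.smul_apply, smul_eq_mul]
    ring
  rw [← h5]
  abel

omit [Fintype ρ] in
theorem VCert.dot_lin (h : VCert a β v B D s) (μ : Fin n → ℝ) (j : Fin n) :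
    a (B j) ⬝ᵥ (∑ l, μ l • D l) = -s * μ j := by
  rw [dotProduct_sum, Finset.sum_eq_single j]
  · rw [dotProduct_smul, h.dual]; simp; ring
  · intro l _ hl
    rw [dotProduct_smul, h.dual, if_neg (Ne.symm hl)]; simp
  · intro hcon; exact absurd (Finset.mem_univ j) hcon

omit [Fintype ρ] in
theorem VCert.extreme (h : VCert a β v B D s) : v ∈ (poly a β).extremePoints ℝ := by
  refine ⟨h.mem, ?_⟩
  intro x hx y hy hv
  obtain ⟨p, q, hp, hq, hpq, heq⟩ := hv
  have h1 : ∀ j, a (B j) ⬝ᵥ x = β (B j) := by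
    intro j
    have h2 := h.tight j
    rw [← heq, dotProduct_add, dotProduct_smul, dotProduct_smul, smul_eq_mul, smul_eq_mul] at h2
    have h3 := hx (B j)
    have h4 := hy (B j)
    by_contra hne
    have h5 : a (B j) ⬝ᵥ x < β (B j) := lt_of_le_of_ne h3 hne
    have h6 : p * (a (B j) ⬝ᵥ x) < p * β (B j) := mul_lt_mul_of_pos_left h5 hp
    have h7 : q * (a (B j) ⬝ᵥ y) ≤ q * β (B j) := mul_le_mul_of_nonneg_left h4 hq.le
    have h8 : p * β (B j) + q * β (B j) = β (B j) := by rw [← add_mul, hpq, one_mul]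
    linarith
  have h2 := h.rep x
  rw [h2]
  simp [h1]

/-- Points slightly off a simple vertex in the cone of its edge directions stay feasible. -/
theorem VCert.small (h : VCert a β v B D s) (μ : Fin n → ℝ) (hμ : ∀ j, 0 ≤ μ j) :
    ∀ᶠ ε in nhdsWithin (0 : ℝ) (Set.Ioi 0), v + ε • (∑ l, μ l • D l) ∈ poly a β := by
  have key : ∀ i, ∀ᶠ ε in nhdsWithin (0 : ℝ) (Set.Ioi 0),
      a i ⬝ᵥ (v + ε • (∑ l, μ l • D l)) ≤ β i := by
    intro i
    by_cases hi : ∃ j, i = B j
    · obtain ⟨j, rfl⟩ := hi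
      filter_upwards [self_mem_nhdsWithin] with ε hε
      have hε' : (0 : ℝ) < ε := hε
      rw [dotProduct_add, dotProduct_smul, h.tight, h.dot_lin, smul_eq_mul]
      have : 0 ≤ ε * (s * μ j) := mul_nonneg hε'.le (mul_nonneg h.spos.le (hμ j))
      nlinarith
    · push Not at hi
      have hlt := h.slack i hi
      have hc : Filter.Tendsto (fun ε : ℝ => a i ⬝ᵥ (v + ε • (∑ l, μ l • D l)))
          (nhdsWithin 0 (Set.Ioi 0)) (nhds (a i ⬝ᵥ v)) := by
        have : Continuous (fun ε : ℝ => a i ⬝ᵥ (v + ε • (∑ l, μ l • D l))) := by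
          simp only [dotProduct_add, dotProduct_smul]
          fun_prop
        have h2 := this.tendsto 0
        simp only [zero_smul, add_zero] at h2
        exact h2.mono_left nhdsWithin_le_nhds
      exact (hc.eventually (gt_mem_nhds hlt)).mono fun ε hε => hε.le
  have := Filter.eventually_all.mpr key
  exact this.mono fun ε hε => hε

/-- The edge lemma: an extreme segment starting at a simple vertex runs along one of the
`n` certified directions. -/
theorem VCert.edge (h : VCert a β v B D s) (hw : w ∈ poly a β) (hne : v ≠ w)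
    (hext : IsExtreme ℝ (poly a β) (segment ℝ v w)) :
    ∃ j, ∃ t : ℝ, 0 < t ∧ w = v + t • D j := by
  classical
  have hs := h.spos
  set μ : Fin n → ℝ := fun j => (β (B j) - a (B j) ⬝ᵥ w) / s with hμdef
  have hμ0 : ∀ j, 0 ≤ μ j := fun j => div_nonneg (sub_nonneg.mpr (hw (B j))) hs.le
  have hwrep : w = v + ∑ j, μ j • D j := h.rep w
  have hex : ∃ j, 0 < μ j := by
    by_contra hcon
    push Not at hcon
    apply hne
    rw [hwrep]
    have : ∀ j, μ j = 0 := fun j => le_antisymm (hcon j) (hμ0 j)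
    simp [this]
  obtain ⟨j₁, hj₁⟩ := hex
  have honly : ∀ j, j ≠ j₁ → μ j = 0 := by
    intro j₂ hj₂
    by_contra hne2
    have hpos2 : 0 < μ j₂ := lt_of_le_of_ne (hμ0 j₂) (Ne.symm hne2)
    set μ1 : Fin n → ℝ := Function.update (Function.update μ j₂ 0) j₁ (2 * μ j₁) with hμ1
    set μ2 : Fin n → ℝ := Function.update (Function.update μ j₂ (2 * μ j₂)) j₁ 0 with hμ2
    have hsum : ∀ j, μ1 j + μ2 j = 2 * μ j := by
      intro j
      by_cases h1 : j = j₁
      · subst h1; simp [hμ1, hμ2]
      · by_cases h2 : j = j₂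
        · subst h2
          simp [hμ1, hμ2, Function.update_of_ne h1]
        · simp [hμ1, hμ2, Function.update_of_ne h1, Function.update_of_ne h2]; ring
    have hμ1n : ∀ j, 0 ≤ μ1 j := by
      intro j
      by_cases h1 : j = j₁
      · subst h1; simp [hμ1, hμ0]
      · by_cases h2 : j = j₂
        · subst h2; simp [hμ1, Function.update_of_ne h1]
        · simp [hμ1, Function.update_of_ne h1, Function.update_of_ne h2, hμ0]
    have hμ2n : ∀ j, 0 ≤ μ2 j := by
      intro j
      by_cases h1 : j = j₁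
      · subst h1; simp [hμ2]
      · by_cases h2 : j = j₂
        · subst h2; simp [hμ2, Function.update_of_ne h1, hμ0]
        · simp [hμ2, Function.update_of_ne h1, Function.update_of_ne h2, hμ0]
    have hevp : ∀ᶠ ε in nhdsWithin (0 : ℝ) (Set.Ioi 0), ε ∈ Set.Ioi (0 : ℝ) :=
      self_mem_nhdsWithin
    have hev1 : ∀ᶠ ε in nhdsWithin (0 : ℝ) (Set.Ioi 0), ε < 1 :=
      Filter.Eventually.filter_mono nhdsWithin_le_nhds
          (gt_mem_nhds (show (0 : ℝ) < 1 by norm_num))
    have hev := (h.small μ1 hμ1n).and ((h.small μ2 hμ2n).and (hevp.and hev1))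
    obtain ⟨ε, hx, hy, hε, hε1⟩ := hev.exists
    have hε0 : (0 : ℝ) < ε := hε
    have hz : v + ε • (∑ j, μ j • D j) ∈ segment ℝ v w := by
      refine ⟨1 - ε, ε, by linarith, hε0.le, by ring, ?_⟩
      rw [hwrep]
      simp only [smul_add, sub_smul, one_smul]
      abel
    have hzo : v + ε • (∑ j, μ j • D j) ∈ openSegment ℝ (v + ε • (∑ j, μ1 j • D j))
        (v + ε • (∑ j, μ2 j • D j)) := by
      refine ⟨1 / 2, 1 / 2, by norm_num, by norm_num, by norm_num, ?_⟩
      have h2 : (∑ j, μ1 j • D j) + (∑ j, μ2 j • D j) = (2 : ℝ) • ∑ j, μ j • D j := by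
        rw [← Finset.sum_add_distrib, Finset.smul_sum]
        apply Finset.sum_congr rfl
        intro j _
        rw [← add_smul, hsum, smul_smul]
      have h3 : (1 / 2 : ℝ) • (v + ε • (∑ j, μ1 j • D j)) + (1 / 2 : ℝ) •
          (v + ε • (∑ j, μ2 j • D j)) = v + (ε / 2) • ((∑ j, μ1 j • D j) + (∑ j, μ2 j • D j)) := by
        module
      rw [h3, h2, smul_smul]
      congr 2
      ring
    have hin := hext.2 hx hy hz hzo
    obtain ⟨p, q, hp, hq, hpq, heq⟩ := hin
    have heval : ∀ j, ε * μ1 j = q * μ j := by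
      intro j
      have h1 : a (B j) ⬝ᵥ (p • v + q • w) = a (B j) ⬝ᵥ (v + ε • ∑ l, μ1 l • D l) := by
        rw [heq]
      rw [hwrep] at h1
      rw [dotProduct_add, dotProduct_smul, dotProduct_smul, dotProduct_add, dotProduct_add,
        dotProduct_smul, h.dot_lin, h.dot_lin, h.tight] at h1
      simp only [smul_eq_mul] at h1
      have hp' : p = 1 - q := by linarith
      subst hp'
      have h2 : s * (ε * μ1 j - q * μ j) = 0 := by linarith
      rcases mul_eq_zero.mp h2 with h3 | h3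
      · exact absurd h3 hs.ne'
      · linarith
    have e2 := heval j₂
    have e1 := heval j₁
    have h11 : μ1 j₁ = 2 * μ j₁ := by simp [hμ1]
    have h12 : μ1 j₂ = 0 := by simp [hμ1, Function.update_of_ne hj₂]
    rw [h12, mul_zero] at e2
    have hq0 : q = 0 := by
      rcases mul_eq_zero.mp e2.symm with h3 | h3
      · exact h3
      · exact absurd h3 hpos2.ne'
    rw [h11, hq0, zero_mul] at e1
    have : 0 < ε * (2 * μ j₁) := by positivity
    linarith
  refine ⟨j₁, μ j₁, hj₁, ?_⟩
  conv_lhs => rw [hwrep]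
  congr 1
  rw [Finset.sum_eq_single j₁]
  · intro j _ hj; rw [honly j hj, zero_smul]
  · intro hcon; exact absurd (Finset.mem_univ j₁) hcon

omit [Fintype ρ] in
/-- The vertex at the other end of an edge is determined by the ratio test. -/
theorem ratio_end {d u : Fin n → ℝ} {t r : ℝ} (hv : v ∈ poly a β) (ht : 0 < t)
    (hw : v + t • d ∈ (poly a β).extremePoints ℝ) (hr : 0 < r) (hu : u = v + r • d)
    (huP : u ∈ poly a β) (i : ρ) (hi : 0 < a i ⬝ᵥ d) (hiu : a i ⬝ᵥ u = β i) :
    v + t • d = u := by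
  have hle : t ≤ r := by
    have h1 := hw.1 i
    rw [hu] at hiu
    rw [← hiu, dotProduct_add, dotProduct_add, dotProduct_smul, dotProduct_smul] at h1
    simp only [smul_eq_mul] at h1
    nlinarith
  rcases hle.lt_or_eq with hlt | heq
  · exfalso
    have hopen : v + t • d ∈ openSegment ℝ v u := by
      refine ⟨1 - t / r, t / r, ?_, by positivity, by ring, ?_⟩
      · rw [sub_pos, div_lt_one hr]; exact hlt
      · rw [hu]
        have : (t / r) * r = t := by field_simp
        calc (1 - t / r) • v + (t / r) • (v + r • d) = v + ((t / r) * r) • d := by module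
          _ = v + t • d := by rw [this]
    have h2 := hw.2 hv huP hopen
    have h3 : t • d = 0 := by
      have : v + t • d - v = 0 := by rw [← h2]; simp
      simpa using this
    rcases smul_eq_zero.mp h3 with h4 | h4
    · exact ht.ne' h4
    · rw [h4] at hi; simp at hi
  · rw [heq, hu]

omit [Fintype ρ] in
/-- A simple vertex with no improving direction is a maximiser. -/
theorem VCert.isMax (h : VCert a β v B D s) (c : Fin n → ℝ) (hc : ∀ j, c ⬝ᵥ D j ≤ 0) :
    IsMax (poly a β) (fun x => c ⬝ᵥ x) v := by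
  refine ⟨h.mem, ?_⟩
  intro x hx
  have h1 := h.rep x
  simp only
  rw [h1, dotProduct_add, dotProduct_sum]
  have : ∑ j, c ⬝ᵥ (((β (B j) - a (B j) ⬝ᵥ x) / s) • D j) ≤ 0 := by
    apply Finset.sum_nonpos
    intro j _
    rw [dotProduct_smul, smul_eq_mul]
    exact mul_nonpos_of_nonneg_of_nonpos
      (div_nonneg (sub_nonneg.mpr (hx (B j))) h.spos.le) (hc j)
  linarith

end Edge

end Pool.Agent.MonoLP
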