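import Mathlib
import Pool.Agent.Lib.MP_4d246d_lc.Mono.Cert

/-!
# Integer certificates for tracked systems of vertices of a polyhedron
-/

namespace Pool.Agent.MonoLP

open Set Matrix

/-- dot product of integer lists -/
def dotL : List ℤ → List ℤ → ℤ
  | a :: as, b :: bs => a * b + dotL as bs
  | _, _ => 0

/-- the real vector with the entries of an integer list -/
def vec (n : ℕ) (l : List ℤ) : Fin n → ℝ := fun y => ((l.getD y 0 : ℤ) : ℝ)

theorem dotL_eq (n : ℕ) (l l' : List ℤ) (hl : l.length ≤ n) :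
    vec n l ⬝ᵥ vec n l' = ((dotL l l' : ℤ) : ℝ) := by
  induction n generalizing l l' with
  | zero =>
    have : l = [] := List.length_eq_zero_iff.mp (by omega)
    subst this
    simp [dotProduct, dotL]
  | succ n ih =>
    cases l with
    | nil => simp [dotProduct, dotL, vec]
    | cons a as =>
      cases l' with
      | nil => simp [dotProduct, dotL, vec]
      | cons b bs =>
        have h1 := ih as bs (by simpa using hl)
        rw [dotProduct, Fin.sum_univ_succ]
        simp only [dotL]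
        have h2 : ∑ i : Fin n, vec (n + 1) (a :: as) i.succ * vec (n + 1) (b :: bs) i.succ =
            vec n as ⬝ᵥ vec n bs := by
          rw [dotProduct]
          apply Finset.sum_congr rfl
          intro i _
          simp [vec]
        rw [h2, h1]
        simp [vec]

/-- One vertex of the certificate: the vertex is `p / q`; `B` lists the tight rows, `D` the edge
directions, `s` the common scale; `nb` gives for each improving direction `(T, τ, l, i)`: the
neighbour is entry `l`, with blocking row `i` and `T (p_l q - p q_l) = τ d`. -/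
structure Entry where
  p : List ℤ
  q : ℤ
  B : List ℕ
  s : ℤ
  D : List (List ℤ)
  nb : List (ℤ × ℤ × ℕ × ℕ)
  φ : ℕ

/-- default entry -/
def Entry.dflt : Entry := ⟨[], 0, [], 0, [], [], 0⟩

/-- neighbour check -/
def okNb (n M : ℕ) (row : List ℤ) (βi : ℤ) (e e' : Entry) (d : List ℤ) (T τ : ℤ) (l i L : ℕ) :
    Prop :=
  0 < T ∧ 0 < τ ∧ l < L ∧ i < M ∧
    (∀ y < n, T * (e'.p.getD y 0 * e.q - e.p.getD y 0 * e'.q) = τ * d.getD y 0) ∧
    0 < dotL row d ∧ dotL row e'.p = βi * e'.q ∧ e.φ ≤ e'.φ + 1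

instance (n M : ℕ) (row : List ℤ) (βi : ℤ) (e e' : Entry) (d : List ℤ) (T τ : ℤ) (l i L : ℕ) :
    Decidable (okNb n M row βi e e' d T τ l i L) := by unfold okNb; infer_instance

/-- the check of one entry -/
def okEntry (n M : ℕ) (rows : List (List ℤ)) (β c : List ℤ) (E : List Entry) (e : Entry) :
    Prop :=
  0 < e.q ∧ 0 < e.s ∧ e.B.length = n ∧
  (∀ j < n, e.B.getD j 0 < M ∧
    dotL (rows.getD (e.B.getD j 0) []) e.p = β.getD (e.B.getD j 0) 0 * e.q) ∧
  (∀ i < M, i ∈ e.B ∨ dotL (rows.getD i []) e.p < β.getD i 0 * e.q) ∧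
  (∀ j < n, ∀ l < n, dotL (rows.getD (e.B.getD j 0) []) (e.D.getD l []) =
    if j = l then -e.s else 0) ∧
  (∀ j < n, dotL c (e.D.getD j []) ≤ 0 ∨
    okNb n M (rows.getD (e.nb.getD j (0, 0, 0, 0)).2.2.2 [])
      (β.getD (e.nb.getD j (0, 0, 0, 0)).2.2.2 0) e
      (E.getD (e.nb.getD j (0, 0, 0, 0)).2.2.1 Entry.dflt) (e.D.getD j [])
      (e.nb.getD j (0, 0, 0, 0)).1 (e.nb.getD j (0, 0, 0, 0)).2.1
      (e.nb.getD j (0, 0, 0, 0)).2.2.1 (e.nb.getD j (0, 0, 0, 0)).2.2.2 E.length) ∧
  (e.φ = 0 ∨ ∃ j < n, 0 < dotL c (e.D.getD j []))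

instance (n M : ℕ) (rows : List (List ℤ)) (β c : List ℤ) (E : List Entry) (e : Entry) :
    Decidable (okEntry n M rows β c E e) := by
  unfold okEntry; infer_instance

/-- the whole certificate -/
def okAll (n M : ℕ) (rows : List (List ℤ)) (β c : List ℤ) (E : List Entry) : Prop :=
  (∀ i < M, (rows.getD i []).length ≤ n) ∧ c.length ≤ n ∧ ∀ e ∈ E, okEntry n M rows β c E e

instance (n M : ℕ) (rows : List (List ℤ)) (β c : List ℤ) (E : List Entry) :
    Decidable (okAll n M rows β c E) := by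
  unfold okAll; infer_instance

/-- real rows -/
def rowsR (n M : ℕ) (rows : List (List ℤ)) : Fin M → Fin n → ℝ :=
  fun i => vec n (rows.getD i [])

/-- real right-hand sides -/
def betaR (M : ℕ) (β : List ℤ) : Fin M → ℝ := fun i => ((β.getD i 0 : ℤ) : ℝ)

/-- the point of an entry -/
noncomputable def Entry.pt (n : ℕ) (e : Entry) : Fin n → ℝ := ((e.q : ℝ)⁻¹) • vec n e.p

section Sound

variable {n M : ℕ} {rows : List (List ℤ)} {β c : List ℤ} {E : List Entry}

theorem dot_pt (e : Entry) (l : List ℤ) (hl : l.length ≤ n) :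
    vec n l ⬝ᵥ e.pt n = ((dotL l e.p : ℤ) : ℝ) / e.q := by
  rw [Entry.pt, dotProduct_smul, dotL_eq n _ _ hl, smul_eq_mul]
  field_simp

/-- basis of an entry -/
noncomputable def Entry.basis (n M : ℕ) (e : Entry) (h : ∀ j < n, e.B.getD j 0 < M) :
    Fin n → Fin M := fun j => ⟨e.B.getD j 0, h j j.2⟩

theorem okAll.vcert (h : okAll n M rows β c E) (e : Entry) (he : e ∈ E) :
    ∃ B : Fin n → Fin M,
    VCert (rowsR n M rows) (betaR M β) (e.pt n) B (fun j => vec n (e.D.getD j [])) (e.s : ℝ) := by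
  obtain ⟨hlen, hclen, hall⟩ := h
  obtain ⟨hq, hs, hBl, htight, hslack, hdual, -, -⟩ := hall e he
  have hq' : (0 : ℝ) < e.q := by exact_mod_cast hq
  refine ⟨e.basis n M fun j hj => (htight j hj).1, ?_, ?_, ?_, ?_⟩
  · exact_mod_cast hs
  · intro j
    have h1 := (htight j j.2).2
    show vec n (rows.getD (e.B.getD j 0) []) ⬝ᵥ e.pt n = ((β.getD (e.B.getD j 0) 0 : ℤ) : ℝ)
    rw [dot_pt e _ (hlen _ (htight j j.2).1), h1]
    push_cast
    field_simp
  · intro i hi
    have h1 := hslack i i.2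
    rcases h1 with h1 | h1
    · exfalso
      obtain ⟨k, hk, hki⟩ := List.getElem_of_mem h1
      have hkn : k < n := by omega
      apply hi ⟨k, hkn⟩
      apply Fin.ext
      show (i : ℕ) = e.B.getD k 0
      rw [List.getD_eq_getElem _ _ hk, hki]
    · show vec n (rows.getD i []) ⬝ᵥ e.pt n < ((β.getD i 0 : ℤ) : ℝ)
      rw [dot_pt e _ (hlen _ i.2), div_lt_iff₀ hq']
      exact_mod_cast h1
  · intro j l
    have h1 := hdual j j.2 l l.2
    show vec n (rows.getD (e.B.getD j 0) []) ⬝ᵥ vec n (e.D.getD l []) = _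
    rw [dotL_eq n _ _ (hlen _ (htight j j.2).1), h1]
    by_cases hjl : j = l
    · subst hjl; simp
    · have : (j : ℕ) ≠ l := fun h => hjl (Fin.ext h)
      simp [hjl, this]

theorem okAll.extreme (h : okAll n M rows β c E) (e : Entry) (he : e ∈ E) :
    e.pt n ∈ (poly (rowsR n M rows) (betaR M β)).extremePoints ℝ := by
  obtain ⟨B, hB⟩ := h.vcert e he
  exact hB.extreme

/-- entries without improving direction are optimal -/
theorem okAll.isMax (h : okAll n M rows β c E) (e : Entry) (he : e ∈ E)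
    (hc : ∀ j < n, dotL c (e.D.getD j []) ≤ 0) :
    IsMax (poly (rowsR n M rows) (betaR M β)) (fun x => vec n c ⬝ᵥ x) (e.pt n) := by
  obtain ⟨B, hB⟩ := h.vcert e he
  apply hB.isMax
  intro j
  rw [dotL_eq n _ _ h.2.1]
  exact_mod_cast hc j j.2

theorem okAll.tracked (h : okAll n M rows β c E) :
    Tracked (poly (rowsR n M rows) (betaR M β)) (fun x => vec n c ⬝ᵥ x)
      (fun k : Fin E.length => (E.get k).pt n) (fun k => (E.get k).φ) := by
  constructor
  · intro k w hw
    obtain ⟨hne, hv, hwx, hext, hlt⟩ := hw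
    set e := E.get k with he
    have heE : e ∈ E := List.get_mem E k
    obtain ⟨B, hB⟩ := h.vcert e heE
    obtain ⟨j, t, ht, hwt⟩ := hB.edge hwx.1 hne hext
    obtain ⟨hlen, hclen, hall⟩ := h
    obtain ⟨hq, hs, hBl, htight, hslack, hdual, hnb, -⟩ := hall e heE
    have hq' : (0 : ℝ) < e.q := by exact_mod_cast hq
    have hcpos : 0 < dotL c (e.D.getD j []) := by
      simp only at hlt
      rw [hwt, dotProduct_add, dotProduct_smul, dotL_eq n _ _ hclen, smul_eq_mul] at hlt
      have h1 : 0 < t * ((dotL c (e.D.getD j []) : ℤ) : ℝ) := by linarith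
      have h2 := (mul_pos_iff_of_pos_left ht).mp h1
      exact_mod_cast h2
    rcases hnb j j.2 with h1 | h1
    · omega
    · obtain ⟨hT, hτ, hl, hi, hvec, hblock, hblock2, hφ⟩ := h1
      set T := (e.nb.getD j (0, 0, 0, 0)).1
      set τ := (e.nb.getD j (0, 0, 0, 0)).2.1
      set l := (e.nb.getD j (0, 0, 0, 0)).2.2.1
      set i := (e.nb.getD j (0, 0, 0, 0)).2.2.2
      have hel : E.getD l Entry.dflt = E.get ⟨l, hl⟩ := by
        rw [List.getD_eq_getElem _ _ hl]; rfl
      rw [hel] at hvec hblock2 hφ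
      set e' := E.get ⟨l, hl⟩ with he'
      have heE' : e' ∈ E := List.get_mem E _
      obtain ⟨B', hB'⟩ := okAll.vcert ⟨hlen, hclen, hall⟩ e' heE'
      have hq'0 := (hall e' heE').1
      have hqq : (0 : ℝ) < e'.q := by exact_mod_cast hq'0
      refine ⟨⟨l, hl⟩, ?_, hφ⟩
      have hTr : (0 : ℝ) < T := by exact_mod_cast hT
      have hτr : (0 : ℝ) < τ := by exact_mod_cast hτ
      have hr : (0 : ℝ) < (τ : ℝ) / (T * e.q * e'.q) := by positivity
      have hu : e'.pt n = e.pt n + ((τ : ℝ) / (T * e.q * e'.q)) • vec n (e.D.getD j []) := by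
        funext y
        have h2 := hvec y y.2
        have h3 : (T : ℝ) * (((e'.p.getD y 0 : ℤ) : ℝ) * e.q - ((e.p.getD y 0 : ℤ) : ℝ) * e'.q) =
            τ * (((e.D.getD j []).getD y 0 : ℤ) : ℝ) := by exact_mod_cast h2
        simp only [Entry.pt, vec, Pi.add_apply, Pi.smul_apply, smul_eq_mul]
        field_simp
        linarith
      have hb1 : 0 < rowsR n M rows ⟨i, hi⟩ ⬝ᵥ vec n (e.D.getD j []) := by
        show 0 < vec n (rows.getD i []) ⬝ᵥ vec n (e.D.getD j [])
        rw [dotL_eq n _ _ (hlen i hi)]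
        exact_mod_cast hblock
      have hb2 : rowsR n M rows ⟨i, hi⟩ ⬝ᵥ e'.pt n = betaR M β ⟨i, hi⟩ := by
        show vec n (rows.getD i []) ⬝ᵥ e'.pt n = ((β.getD i 0 : ℤ) : ℝ)
        rw [dot_pt e' _ (hlen i hi), hblock2]
        push_cast
        field_simp
      rw [hwt] at hwx ⊢
      exact ratio_end hB.mem ht hwx hr hu hB'.mem ⟨i, hi⟩ hb1 hb2
  · intro k hk
    have heE : E.get k ∈ E := List.get_mem E k
    obtain ⟨B, hB⟩ := h.vcert _ heE
    obtain ⟨hq, hs, hBl, htight, hslack, hdual, hnb, hfin⟩ := h.2.2 _ heE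
    rcases hfin with h0 | ⟨j, hj, hpos⟩
    · exact h0
    · exfalso
      -- small move along `D j` improves
      set e := E.get k with he
      have hsm := hB.small (fun l => if l = ⟨j, hj⟩ then 1 else 0)
        (by intro l; split_ifs <;> norm_num)
      have hevp : ∀ᶠ ε in nhdsWithin (0 : ℝ) (Set.Ioi 0), ε ∈ Set.Ioi (0 : ℝ) :=
        self_mem_nhdsWithin
      obtain ⟨ε, hε, hε0⟩ := (hsm.and hevp).exists
      have hε0' : (0 : ℝ) < ε := hε0
      have hsum : (∑ l : Fin n, (if l = ⟨j, hj⟩ then (1 : ℝ) else 0) • vec n (e.D.getD l [])) =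
          vec n (e.D.getD j []) := by
        rw [Finset.sum_eq_single (⟨j, hj⟩ : Fin n)]
        · simp
        · intro l _ hl; simp [hl]
        · intro hcon; exact absurd (Finset.mem_univ _) hcon
      rw [hsum] at hε
      have h1 := hk.2 _ hε
      simp only at h1
      rw [dotProduct_add, dotProduct_smul, dotL_eq n _ _ h.2.1, smul_eq_mul] at h1
      have h2 : (0 : ℝ) < ((dotL c (e.D.getD j []) : ℤ) : ℝ) := by exact_mod_cast hpos
      have h3 : 0 < ε * ((dotL c (e.D.getD j []) : ℤ) : ℝ) := mul_pos hε0' h2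
      linarith

end Sound

end Pool.Agent.MonoLP
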