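import Mathlib
import Pool.Agent.Lib.MP_4d246d_lc.Mono.Check

/-!
# Linear programs `max c·x, A x ≤ b, x ≥ 0`, monotone edge paths, and block copies
-/

namespace Pool.Agent.MonoLP

open Set Matrix

/-- The feasible polyhedron `{x ∈ ℝⁿ : A x ≤ b, x ≥ 0}` (integer data). -/
def Feasible {m n : ℕ} (A : Matrix (Fin m) (Fin n) ℤ) (b : Fin m → ℤ) : Set (Fin n → ℝ) :=
  {x | (∀ i, ∑ j, (A i j : ℝ) * x j ≤ (b i : ℝ)) ∧ ∀ j, 0 ≤ x j}

/-- The objective `x ↦ c · x`. -/
def objective {n : ℕ} (c : Fin n → ℤ) (x : Fin n → ℝ) : ℝ := ∑ j, (c j : ℝ) * x j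

/-- `v` is a vertex of the feasible polyhedron. -/
def IsVertex {m n : ℕ} (A : Matrix (Fin m) (Fin n) ℤ) (b : Fin m → ℤ) (v : Fin n → ℝ) : Prop :=
  v ∈ (Feasible A b).extremePoints ℝ

/-- One pivot step allowed to a version of the simplex method: `v` and `w` are distinct vertices
joined by an edge (the segment between them is a face) and the objective strictly increases. -/
def PivotStep {m n : ℕ} (A : Matrix (Fin m) (Fin n) ℤ) (b : Fin m → ℤ) (c : Fin n → ℤ)
    (v w : Fin n → ℝ) : Prop :=
  v ≠ w ∧ IsVertex A b v ∧ IsVertex A b w ∧ IsExtreme ℝ (Feasible A b) (segment ℝ v w) ∧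
    objective c v < objective c w

/-- `v` is an optimal solution. -/
def IsOptimal {m n : ℕ} (A : Matrix (Fin m) (Fin n) ℤ) (b : Fin m → ℤ) (c : Fin n → ℤ)
    (v : Fin n → ℝ) : Prop :=
  v ∈ Feasible A b ∧ ∀ x ∈ Feasible A b, objective c x ≤ objective c v

/-- `k` block copies of a matrix. -/
def blockA (k : ℕ) {m n : ℕ} (A : Matrix (Fin m) (Fin n) ℤ) :
    Matrix (Fin (k * m)) (Fin (k * n)) ℤ := fun I J =>
  if (finProdFinEquiv.symm I).1 = (finProdFinEquiv.symm J).1 then
    A (finProdFinEquiv.symm I).2 (finProdFinEquiv.symm J).2 else 0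

/-- `k` copies of a vector. -/
def blockV (k : ℕ) {m : ℕ} (b : Fin m → ℤ) : Fin (k * m) → ℤ := fun I =>
  b (finProdFinEquiv.symm I).2

/-- splitting a vector in blocks -/
def splitE (k n : ℕ) : (Fin k → Fin n → ℝ) ≃ₗ[ℝ] (Fin (k * n) → ℝ) where
  toFun x J := x (finProdFinEquiv.symm J).1 (finProdFinEquiv.symm J).2
  invFun y a j := y (finProdFinEquiv (a, j))
  left_inv x := by funext a j; simp
  right_inv y := by funext J; simp [-finProdFinEquiv_symm_apply]
  map_add' x y := rfl
  map_smul' r x := rfl

theorem image_splitE (k : ℕ) {m n : ℕ} (A : Matrix (Fin m) (Fin n) ℤ) (b : Fin m → ℤ) :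
    (splitE k n) '' (prodSet (Fin k) (Feasible A b)) = Feasible (blockA k A) (blockV k b) := by
  ext y
  constructor
  · rintro ⟨x, hx, rfl⟩
    refine ⟨?_, ?_⟩
    · intro I
      have h1 := (hx (finProdFinEquiv.symm I).1).1 (finProdFinEquiv.symm I).2
      have h2 : ∑ J, ((blockA k A I J : ℤ) : ℝ) * (splitE k n) x J =
          ∑ j, (A (finProdFinEquiv.symm I).2 j : ℝ) * x (finProdFinEquiv.symm I).1 j := by
        rw [← finProdFinEquiv.sum_comp, Fintype.sum_prod_type]
        rw [Finset.sum_eq_single (finProdFinEquiv.symm I).1]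
        · apply Finset.sum_congr rfl
          intro j _
          simp [blockA, splitE, -finProdFinEquiv_symm_apply]
        · intro a _ ha
          apply Finset.sum_eq_zero
          intro j _
          simp [blockA, Ne.symm ha, -finProdFinEquiv_symm_apply]
        · intro hcon; exact absurd (Finset.mem_univ _) hcon
      rw [h2]
      exact h1
    · intro J
      exact (hx (finProdFinEquiv.symm J).1).2 (finProdFinEquiv.symm J).2
  · rintro ⟨h1, h2⟩
    refine ⟨(splitE k n).symm y, ?_, by simp⟩
    intro a
    refine ⟨?_, ?_⟩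
    · intro i
      have h3 := h1 (finProdFinEquiv (a, i))
      have h4 : ∑ J, ((blockA k A (finProdFinEquiv (a, i)) J : ℤ) : ℝ) * y J =
          ∑ j, (A i j : ℝ) * (splitE k n).symm y a j := by
        rw [← finProdFinEquiv.sum_comp, Fintype.sum_prod_type]
        rw [Finset.sum_eq_single a]
        · apply Finset.sum_congr rfl
          intro j _
          simp [blockA, splitE, -finProdFinEquiv_symm_apply]
        · intro a' _ ha
          apply Finset.sum_eq_zero
          intro j _
          simp [blockA, Ne.symm ha, -finProdFinEquiv_symm_apply]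
        · intro hcon; exact absurd (Finset.mem_univ _) hcon
      rw [← h4]
      simpa [blockV] using h3
    · intro j
      exact h2 (finProdFinEquiv (a, j))

theorem objective_block (k : ℕ) {n : ℕ} (c : Fin n → ℤ) (y : Fin (k * n) → ℝ) :
    objective (blockV k c) y = ∑ a, objective c ((splitE k n).symm y a) := by
  rw [objective, ← finProdFinEquiv.sum_comp, Fintype.sum_prod_type]
  apply Finset.sum_congr rfl
  intro a _
  apply Finset.sum_congr rfl
  intro j _
  simp [blockV, splitE, -finProdFinEquiv_symm_apply]

/-- the matrix read off from the list data -/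
def matL (m n : ℕ) (rows : List (List ℤ)) : Matrix (Fin m) (Fin n) ℤ :=
  fun i j => (rows.getD i []).getD j 0

/-- the vector read off from the list data -/
def vecL (m : ℕ) (β : List ℤ) : Fin m → ℤ := fun i => β.getD i 0

/-- the last `n` rows encode `x ≥ 0` -/
def signOK (m n : ℕ) (rows : List (List ℤ)) (β : List ℤ) : Prop :=
  ∀ j < n, β.getD (m + j) 0 = 0 ∧ ∀ y < n, (rows.getD (m + j) []).getD y 0 =
    if y = j then -1 else 0

instance (m n : ℕ) (rows : List (List ℤ)) (β : List ℤ) : Decidable (signOK m n rows β) := by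
  unfold signOK; infer_instance

theorem feasible_eq_poly {m n : ℕ} {rows : List (List ℤ)} {β : List ℤ}
    (hs : signOK m n rows β) :
    Feasible (matL m n rows) (vecL m β) = poly (rowsR n (m + n) rows) (betaR (m + n) β) := by
  ext x
  constructor
  · rintro ⟨h1, h2⟩ i
    refine Fin.addCases (fun i => ?_) (fun j => ?_) i
    · have := h1 i
      simpa [rowsR, betaR, vec, dotProduct, matL, vecL] using this
    · have h3 := hs j j.2
      have h4 := h2 j
      have h5 : rowsR n (m + n) rows (Fin.natAdd m j) ⬝ᵥ x = -x j := by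
        rw [dotProduct, Finset.sum_eq_single j]
        · simp only [rowsR, vec, Fin.val_natAdd]
          rw [h3.2 j j.2]
          simp
        · intro y _ hy
          simp only [rowsR, vec, Fin.val_natAdd]
          rw [h3.2 y y.2, if_neg (fun h => hy (Fin.ext h))]
          simp
        · intro hcon; exact absurd (Finset.mem_univ _) hcon
      rw [h5]
      simp only [betaR, Fin.val_natAdd]
      rw [h3.1]
      simpa using h4
  · intro h
    refine ⟨fun i => ?_, fun j => ?_⟩
    · have := h (Fin.castAdd n i)
      simpa [rowsR, betaR, vec, dotProduct, matL, vecL] using this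
    · have h3 := hs j j.2
      have h4 := h (Fin.natAdd m j)
      have h5 : rowsR n (m + n) rows (Fin.natAdd m j) ⬝ᵥ x = -x j := by
        rw [dotProduct, Finset.sum_eq_single j]
        · simp only [rowsR, vec, Fin.val_natAdd]
          rw [h3.2 j j.2]
          simp
        · intro y _ hy
          simp only [rowsR, vec, Fin.val_natAdd]
          rw [h3.2 y y.2, if_neg (fun h => hy (Fin.ext h))]
          simp
        · intro hcon; exact absurd (Finset.mem_univ _) hcon
      rw [h5] at h4
      simp only [betaR, Fin.val_natAdd] at h4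
      rw [h3.1] at h4
      simpa using h4

/-- Main consequence of a certificate: `k` block copies need at least `k φ₀` pivots. -/
theorem cert_main {m n : ℕ} {rows : List (List ℤ)} {β c : List ℤ} {E : List Entry}
    (h : okAll n (m + n) rows β c E) (hs : signOK m n rows β) (i₀ i₁ : Fin E.length)
    (hopt : ∀ j < n, dotL c ((E.get i₁).D.getD j []) ≤ 0) (k : ℕ) :
    ∃ v₀ : Fin (k * n) → ℝ,
      IsVertex (blockA k (matL m n rows)) (blockV k (vecL m β)) v₀ ∧
      (∃ v, IsVertex (blockA k (matL m n rows)) (blockV k (vecL m β)) v ∧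
        IsOptimal (blockA k (matL m n rows)) (blockV k (vecL m β)) (blockV k (vecL n c)) v) ∧
      ∀ (N : ℕ) (p : ℕ → Fin (k * n) → ℝ), p 0 = v₀ →
        (∀ i < N, PivotStep (blockA k (matL m n rows)) (blockV k (vecL m β))
          (blockV k (vecL n c)) (p i) (p (i + 1))) →
        IsOptimal (blockA k (matL m n rows)) (blockV k (vecL m β)) (blockV k (vecL n c)) (p N) →
        k * (E.get i₀).φ ≤ N := by
  have htr := h.tracked
  have hpoly := feasible_eq_poly hs
  have hobj : (fun x : Fin n → ℝ => vec n c ⬝ᵥ x) = objective (vecL n c) := by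
    funext x; rfl
  rw [hobj, ← hpoly] at htr
  have hprod := (Tracked.prod (K := Fin k) htr).image (splitE k n)
  rw [image_splitE] at hprod
  have hobj2 : (fun y => ∑ a, objective (vecL n c) ((splitE k n).symm y a)) =
      objective (blockV k (vecL n c)) := by
    funext y; rw [objective_block]
  rw [hobj2] at hprod
  have hext : ∀ i : Fin E.length, (splitE k n) (fun _ => (E.get i).pt n) ∈
      (Feasible (blockA k (matL m n rows)) (blockV k (vecL m β))).extremePoints ℝ := by
    intro i
    rw [← image_splitE, ← image_extremePoints, prodSet_eq, extremePoints_pi]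
    refine ⟨_, ?_, rfl⟩
    intro a _
    rw [hpoly]
    exact h.extreme _ (List.get_mem E i)
  refine ⟨splitE k n (fun _ => (E.get i₀).pt n), hext i₀,
    ⟨splitE k n (fun _ => (E.get i₁).pt n), hext i₁, (hext i₁).1, ?_⟩, ?_⟩
  · intro y hy
    have hmax := h.isMax _ (List.get_mem E i₁) hopt
    rw [hobj, ← hpoly] at hmax
    rw [objective_block, objective_block]
    apply Finset.sum_le_sum
    intro a _
    rw [← image_splitE] at hy
    obtain ⟨x, hx, rfl⟩ := hy
    rw [LinearEquiv.symm_apply_apply, LinearEquiv.symm_apply_apply]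
    exact hmax.2 _ (hx a)
  · intro N p hp0 hstep hN
    have := hprod.length_ge N p (fun _ => i₀) hp0 hstep hN
    simpa using this

end Pool.Agent.MonoLP
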